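import Mathlib

/-!
# Long cycles in graphs with many edges
-/

set_option autoImplicit false

namespace Pool.Agent.Lib_helper44.CP

open Finset

open scoped Classical in
/-- the number of neighbours of `x` in `V` -/
noncomputable def dg (adj : ℕ → ℕ → Prop) (V : Finset ℕ) (x : ℕ) : ℕ := (V.filter (adj x)).card

/-- A graph with at least `k |V|` edges contains a subgraph of minimal degree at least `k`. -/
theorem core (adj : ℕ → ℕ → Prop) (hs : ∀ x y, adj x y → adj y x) (hi : ∀ x, ¬ adj x x) (k : ℕ) :
    ∀ V : Finset ℕ, V.Nonempty → 2 * k * V.card ≤ ∑ x ∈ V, dg adj V x →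
      ∃ U : Finset ℕ, U ⊆ V ∧ U.Nonempty ∧ ∀ x ∈ U, k ≤ dg adj U x := by
  classical
  intro V
  induction V using Finset.strongInduction with
  | H V ih =>
    intro hV hsum
    by_cases hall : ∀ x ∈ V, k ≤ dg adj V x
    · exact ⟨V, Finset.Subset.refl V, hV, hall⟩
    · push Not at hall
      obtain ⟨v, hv, hvk⟩ := hall
      have h1 : ∀ x ∈ V.erase v, dg adj V x = dg adj (V.erase v) x + if adj x v then 1 else 0 := by
        intro x _
        unfold dg
        have e : V = insert v (V.erase v) := (Finset.insert_erase hv).symm
        conv_lhs => rw [e]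
        rw [Finset.filter_insert]
        split_ifs with h
        · rw [Finset.card_insert_of_notMem (by simp)]
        · simp
      have h2 : ∑ x ∈ V, dg adj V x = dg adj V v + ∑ x ∈ V.erase v, dg adj V x :=
        (Finset.add_sum_erase V (dg adj V) hv).symm
      have h3 : ∑ x ∈ V.erase v, dg adj V x =
          ∑ x ∈ V.erase v, dg adj (V.erase v) x + ∑ x ∈ V.erase v, if adj x v then 1 else 0 := by
        rw [← Finset.sum_add_distrib]
        exact Finset.sum_congr rfl h1
      have h4 : ∑ x ∈ V.erase v, (if adj x v then 1 else 0) ≤ dg adj V v := by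
        rw [← Finset.card_filter]
        unfold dg
        apply Finset.card_le_card
        intro x hx
        rw [Finset.mem_filter, Finset.mem_erase] at hx
        rw [Finset.mem_filter]
        exact ⟨hx.1.2, hs _ _ hx.2⟩
      have hcard : V.card = (V.erase v).card + 1 := (Finset.card_erase_add_one hv).symm
      have hk : 1 ≤ k := by omega
      have h5 : 2 * k * (V.erase v).card ≤ ∑ x ∈ V.erase v, dg adj (V.erase v) x := by
        rw [hcard, mul_add, mul_one] at hsum
        omega
      have hne : (V.erase v).Nonempty := by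
        rw [Finset.nonempty_iff_ne_empty]
        intro he
        rw [he] at h3 hcard
        rw [Finset.sum_empty, Finset.sum_empty] at h3
        have h6 : dg adj V v = 0 := by
          unfold dg
          rw [Finset.card_eq_zero, Finset.filter_eq_empty_iff]
          intro x hx hxv
          have : x = v := by
            by_contra hne
            have : x ∈ V.erase v := Finset.mem_erase.2 ⟨hne, hx⟩
            rw [he] at this
            simp at this
          rw [this] at hxv
          exact hi v hxv
        rw [hcard, h2, he, h6, Finset.sum_empty, Finset.card_empty] at hsum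
        omega
      obtain ⟨U, hU, hUne, hUd⟩ := ih (V.erase v) (Finset.erase_ssubset hv) hne h5
      exact ⟨U, hU.trans (Finset.erase_subset v V), hUne, hUd⟩

/-- A path of length `m` in `U`. -/
def Pth (adj : ℕ → ℕ → Prop) (U : Finset ℕ) (m : ℕ) (p : ℕ → ℕ) : Prop :=
  Set.InjOn p (Set.Iic m) ∧ (∀ i, i ≤ m → p i ∈ U) ∧ ∀ i, i < m → adj (p i) (p (i + 1))

/-- A graph of minimal degree at least `k ≥ 1` contains a closed walk through at least `k + 1`
different points. -/
theorem cyc (adj : ℕ → ℕ → Prop) (hs : ∀ x y, adj x y → adj y x) (hi : ∀ x, ¬ adj x x) (k : ℕ)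
    (hk : 1 ≤ k) (U : Finset ℕ) (hU : U.Nonempty) (hd : ∀ x ∈ U, k ≤ dg adj U x) :
    ∃ m : ℕ, k + 1 ≤ m ∧ ∃ p : ℕ → ℕ, Set.InjOn p (Set.Iio m) ∧ (∀ i, i < m → p i ∈ U) ∧
      ∀ i, i < m → adj (p i) (p ((i + 1) % m)) := by
  classical
  obtain ⟨x0, hx0⟩ := hU
  have hb : ∀ m, (∃ p, Pth adj U m p) → m ≤ U.card := by
    rintro m ⟨p, hp1, hp2, _⟩
    have h1 : ((Finset.range (m + 1)).image p).card = m + 1 := by
      rw [Finset.card_image_of_injOn, Finset.card_range]
      intro a ha b hb hab
      have ha' : a ≤ m := by
        have := Finset.mem_coe.1 ha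
        rw [Finset.mem_range] at this
        omega
      have hb' : b ≤ m := by
        have := Finset.mem_coe.1 hb
        rw [Finset.mem_range] at this
        omega
      exact hp1 ha' hb' hab
    have h2 : (Finset.range (m + 1)).image p ⊆ U := by
      intro y hy
      rw [Finset.mem_image] at hy
      obtain ⟨i, hi, rfl⟩ := hy
      rw [Finset.mem_range] at hi
      exact hp2 i (by omega)
    have := Finset.card_le_card h2
    omega
  have h0 : ∃ p, Pth adj U 0 p := by
    refine ⟨fun _ => x0, ?_, fun _ _ => hx0, fun i hi => absurd hi (Nat.not_lt_zero i)⟩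
    intro a ha b hb _
    have ha' : a ≤ 0 := ha
    have hb' : b ≤ 0 := hb
    omega
  set m := Nat.findGreatest (fun m => ∃ p, Pth adj U m p) U.card with hm
  have hPm : ∃ p, Pth adj U m p :=
    Nat.findGreatest_spec (P := fun m => ∃ p, Pth adj U m p) (Nat.zero_le _) h0
  obtain ⟨p, hp1, hp2, hp3⟩ := hPm
  have hmax : ¬ ∃ q, Pth adj U (m + 1) q := by
    intro h
    have h1 := Nat.le_findGreatest (P := fun m => ∃ p, Pth adj U m p) (hb _ h) h
    omega
  have hN : ∀ y ∈ U, adj (p 0) y → ∃ j, j ≤ m ∧ p j = y := by
    intro y hy hay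
    by_contra hno
    push Not at hno
    apply hmax
    refine ⟨fun i => if i = 0 then y else p (i - 1), ?_, ?_, ?_⟩
    · intro a ha b hb hab
      have ha' : a ≤ m + 1 := ha
      have hb' : b ≤ m + 1 := hb
      simp only at hab
      split_ifs at hab with h1 h2 h2
      · omega
      · exact absurd hab.symm (hno (b - 1) (by omega))
      · exact absurd hab (hno (a - 1) (by omega))
      · have := hp1 (show a - 1 ≤ m by omega) (show b - 1 ≤ m by omega) hab
        omega
    · intro i hi
      change (if i = 0 then y else p (i - 1)) ∈ U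
      split_ifs with h1
      · exact hy
      · exact hp2 _ (by omega)
    · intro i hi
      change adj (if i = 0 then y else p (i - 1)) (if i + 1 = 0 then y else p (i + 1 - 1))
      rw [if_neg (Nat.succ_ne_zero i), Nat.add_sub_cancel]
      by_cases h1 : i = 0
      · rw [if_pos h1, h1]
        exact hs _ _ hay
      · rw [if_neg h1]
        have := hp3 (i - 1) (by omega)
        rwa [Nat.sub_add_cancel (by omega)] at this
  set J := (Finset.range (m + 1)).filter (fun j => adj (p 0) (p j)) with hJ
  have hcard : k ≤ J.card := by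
    refine (hd (p 0) (hp2 0 (Nat.zero_le _))).trans ?_
    unfold dg
    have : U.filter (adj (p 0)) ⊆ J.image p := by
      intro y hy
      rw [Finset.mem_filter] at hy
      obtain ⟨j, hj, hjy⟩ := hN y hy.1 hy.2
      rw [Finset.mem_image]
      refine ⟨j, ?_, hjy⟩
      rw [hJ, Finset.mem_filter, Finset.mem_range, hjy]
      exact ⟨by omega, hy.2⟩
    exact (Finset.card_le_card this).trans Finset.card_image_le
  have hJne : J.Nonempty := by
    rw [← Finset.card_pos]
    omega
  set t := J.max' hJne with ht
  have htJ : t ∈ J := Finset.max'_mem J hJne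
  have htm := (Finset.mem_filter.1 htJ).1
  have hta := (Finset.mem_filter.1 htJ).2
  rw [Finset.mem_range] at htm
  have hJsub : J ⊆ Finset.Icc 1 t := by
    intro j hj
    rw [Finset.mem_Icc]
    refine ⟨?_, Finset.le_max' J j hj⟩
    by_contra h0
    have : j = 0 := by omega
    subst this
    exact hi _ (Finset.mem_filter.1 hj).2
  have hkt : k ≤ t := by
    have := Finset.card_le_card hJsub
    rw [Nat.card_Icc] at this
    omega
  refine ⟨t + 1, by omega, p, ?_, ?_, ?_⟩
  · intro a ha b hb hab
    have ha' : a < t + 1 := ha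
    have hb' : b < t + 1 := hb
    exact hp1 (show a ≤ m by omega) (show b ≤ m by omega) hab
  · intro i hi
    exact hp2 i (by omega)
  · intro i hi
    rcases Nat.lt_or_ge i t with h | h
    · rw [Nat.mod_eq_of_lt (by omega)]
      exact hp3 i (by omega)
    · have : i = t := by omega
      subst this
      rw [Nat.mod_self]
      exact hs _ _ hta

end Pool.Agent.Lib_helper44.CP
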