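import Pool.Agent.Lib_helper44.CP.Small
import Pool.Agent.Lib_helper44.CP.Graph

set_option autoImplicit false

namespace Pool.Agent.Lib_helper44.CP

open Finset Filter Complex Pool.Agent.BG
open scoped ArithmeticFunction.vonMangoldt Classical

/-- `2xy - 1` is prime and `x ≠ y` -/
def adj (x y : ℕ) : Prop := x ≠ y ∧ (2 * x * y - 1).Prime

theorem adj_symm (x y : ℕ) (h : adj x y) : adj y x := by
  refine ⟨h.1.symm, ?_⟩
  have := h.2
  rwa [mul_right_comm] at this

theorem adj_irrefl (x : ℕ) : ¬ adj x x := fun h => h.1 rfl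

theorem le_Emax (u q b : ℕ) (hb : b < q) (hc : Nat.Coprime q b) :
    |thAP u q b - th u / q.totient| ≤ Emax u q := by
  unfold Emax
  have h1 : Real.toNNReal |thAP u q b - th u / q.totient| ≤
      ((range q).filter (Nat.Coprime q)).sup
        (fun a => Real.toNNReal |thAP u q a - th u / q.totient|) :=
    Finset.le_sup (f := fun a => Real.toNNReal |thAP u q a - th u / q.totient|)
      (Finset.mem_filter.2 ⟨Finset.mem_range.2 hb, hc⟩)
  calc |thAP u q b - th u / q.totient| ≤ (Real.toNNReal |thAP u q b - th u / q.totient| : ℝ) :=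
        Real.le_coe_toNNReal _
    _ ≤ _ := by exact_mod_cast h1

/-- the primes up to `N` in the class `-1` modulo `a` -/
noncomputable def Sa (N a : ℕ) : Finset ℕ :=
  (Icc 1 N).filter (fun p => p.Prime ∧ p ≡ a - 1 [MOD a])

theorem thAP_le_card (N a : ℕ) : thAP N a (a - 1) ≤ (Sa N a).card * Real.log N := by
  unfold thAP Sa
  rw [← nsmul_eq_mul]
  apply Finset.sum_le_card_nsmul
  intro p hp
  rw [Finset.mem_filter, Finset.mem_Icc] at hp
  apply Real.log_le_log
  · exact_mod_cast hp.1.1
  · exact_mod_cast hp.1.2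

theorem Sa_mem {N a p : ℕ} (ha : a.Prime) (ha3 : 3 < a) (hp : p ∈ Sa N a) :
    ∃ b : ℕ, 1 ≤ b ∧ 2 * a * b = p + 1 ∧ p ≤ N ∧ p.Prime := by
  unfold Sa at hp
  obtain ⟨h1, h2, h3⟩ := Finset.mem_filter.1 hp
  rw [Finset.mem_Icc] at h1
  have hd : a ∣ p + 1 := by
    have h4 : p + 1 ≡ (a - 1) + 1 [MOD a] := Nat.ModEq.add_right 1 h3
    rw [Nat.sub_add_cancel (by omega)] at h4
    have h5 : p + 1 ≡ 0 [MOD a] := h4.trans (by simp [Nat.ModEq])
    exact (Nat.modEq_zero_iff_dvd).1 h5
  have hp2 : p ≠ 2 := by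
    rintro rfl
    have := Nat.le_of_dvd (by norm_num) hd
    omega
  have hodd : ¬ 2 ∣ p := by
    intro h
    rcases (Nat.dvd_prime h2).1 h with h | h
    · omega
    · exact hp2 h.symm
  have h2d : 2 ∣ p + 1 := by omega
  have hcop : Nat.Coprime 2 a := by
    rw [Nat.coprime_primes Nat.prime_two ha]
    omega
  obtain ⟨b, hb⟩ := hcop.mul_dvd_of_dvd_of_dvd h2d hd
  refine ⟨b, ?_, hb.symm, h1.2, h2⟩
  rcases Nat.eq_zero_or_pos b with h | h
  · rw [h] at hb
    omega
  · exact h

theorem card_Sa_le (N n a : ℕ) (ha : a.Prime) (ha3 : 3 < a) (hn : N + 1 ≤ 2 * a * n) :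
    (Sa N a).card ≤ dg adj (Icc 1 n) a + 1 := by
  have h1 : (Sa N a).card ≤ ((Icc 1 n).filter (fun b => (2 * a * b - 1).Prime)).card := by
    apply Finset.card_le_card_of_injOn (fun p => (p + 1) / (2 * a))
    · intro p hp
      obtain ⟨b, hb1, hb2, hb3, hb4⟩ := Sa_mem ha ha3 (Finset.mem_coe.1 hp)
      have e : (p + 1) / (2 * a) = b := by
        rw [← hb2]
        exact Nat.mul_div_cancel_left b (by omega)
      simp only [e]
      apply Finset.mem_coe.2
      refine Finset.mem_filter.2 ⟨Finset.mem_Icc.2 ⟨hb1, ?_⟩, ?_⟩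
      · have h5 : 2 * a * b ≤ 2 * a * n := by omega
        exact Nat.le_of_mul_le_mul_left h5 (by omega)
      · rw [hb2]
        exact hb4
    · intro p hp q hq hpq
      obtain ⟨b, hb1, hb2, _, _⟩ := Sa_mem ha ha3 (Finset.mem_coe.1 hp)
      obtain ⟨c, hc1, hc2, _, _⟩ := Sa_mem ha ha3 (Finset.mem_coe.1 hq)
      have e : (p + 1) / (2 * a) = b := by
        rw [← hb2]
        exact Nat.mul_div_cancel_left b (by omega)
      have e' : (q + 1) / (2 * a) = c := by
        rw [← hc2]
        exact Nat.mul_div_cancel_left c (by omega)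
      simp only [e, e'] at hpq
      subst hpq
      omega
  have h2 : (Icc 1 n).filter (fun b => (2 * a * b - 1).Prime) ⊆
      insert a ((Icc 1 n).filter (adj a)) := by
    intro b hb
    obtain ⟨h3, h4⟩ := Finset.mem_filter.1 hb
    by_cases h : b = a
    · rw [h]
      exact Finset.mem_insert_self _ _
    · exact Finset.mem_insert_of_mem (Finset.mem_filter.2 ⟨h3, Ne.symm h, h4⟩)
  have h3 := Finset.card_le_card h2
  have h4 := Finset.card_insert_le a ((Icc 1 n).filter (adj a))
  unfold dg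
  omega

theorem edges : ∀ᶠ N : ℕ in atTop, ∀ n : ℕ,
    2 * (Real.sqrt N * Real.log N ^ 12) ≤ n →
      (N : ℝ) / (32 * Real.log N ^ 2) ≤ ((∑ x ∈ Icc 1 n, dg adj (Icc 1 n) x : ℕ) : ℝ) := by
  have ev0 := err_small
  have ev1 : ∀ᶠ N : ℕ in atTop, 1 / 2 ≤ th N / N := by
    have h := BVDPNT_tendsto 1 one_pos 0
    have h2 := h.eventually (eventually_ge_nhds (show (1 / 2 : ℝ) < ((1 : ℕ) : ℝ) by norm_num))
    filter_upwards [h2] with N hN
    have e : 1 * N + 0 = N := by ring
    rwa [e] at hN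
  have ev2 : ∀ᶠ R : ℕ in atTop, 1 / 2 ≤ (th (2 * R) - th R) / R := by
    have h2 := (th_window 0).eventually (eventually_ge_nhds (show (1 / 2 : ℝ) < 1 by norm_num))
    filter_upwards [h2] with N hN
    exact hN
  have ev3 := Rr_tendsto.eventually ev2
  have ev4 := Rr_tendsto.eventually (eventually_ge_atTop 4)
  have ev5 := log_small (1 / 2) (by norm_num) 32 (by norm_num) 2
  have ev6 : ∀ᶠ N : ℕ in atTop, 1 ≤ Real.log N :=
    (Real.tendsto_log_atTop.comp tendsto_natCast_atTop_atTop).eventually_ge_atTop _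
  filter_upwards [ev0, ev1, ev3, ev4, ev5, ev6, eventually_ge_atTop 16] with N h0 h1 h3 h4 h5 h6 hN16
  intro n hn
  set R := Rr N with hR
  set l := Real.log N with hl
  have hN16' : (16 : ℝ) ≤ N := by exact_mod_cast hN16
  have hN1 : (1 : ℝ) ≤ N := by linarith
  have hN0 : (0 : ℝ) < N := by linarith
  have hR4 : (4 : ℝ) ≤ R := by exact_mod_cast h4
  have hl0 : 0 < l := by linarith
  have hsq : Real.sqrt N = (N : ℝ) ^ (1 / 2 : ℝ) := Real.sqrt_eq_rpow _
  have hl12 : 0 < l ^ 12 := by positivity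
  have hl12' : 1 ≤ l ^ 12 := one_le_pow₀ h6
  have hRle : (R : ℝ) ≤ Real.sqrt N / l ^ 12 := Nat.floor_le (by positivity)
  have hRlt : Real.sqrt N / l ^ 12 < R + 1 := Nat.lt_floor_add_one _
  have hss : Real.sqrt N * Real.sqrt N = N := Real.mul_self_sqrt hN0.le
  have hs4 : 4 ≤ Real.sqrt N := by
    rw [show (4 : ℝ) = Real.sqrt (4 ^ 2) by rw [Real.sqrt_sq (by norm_num)]]
    exact Real.sqrt_le_sqrt (by linarith)
  have hRs : (R : ℝ) ≤ Real.sqrt N := by
    rw [le_div_iff₀ hl12] at hRle
    nlinarith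
  have h2R : (2 : ℝ) * R ≤ N := by nlinarith
  set A := (Ioc R (2 * R)).filter Nat.Prime with hA
  -- the number of primes in `A`
  have hcA : (R : ℝ) / 2 ≤ A.card * Real.log (2 * R) := by
    have e1 : th (2 * R) - th R ≤ A.card * Real.log (2 * R) := by
      have e2 : th (2 * R) = th R + ∑ p ∈ A, Real.log p := by
        unfold th
        rw [hA, ← Finset.sum_union]
        · apply Finset.sum_congr _ fun _ _ => rfl
          ext p
          simp only [Finset.mem_union, Finset.mem_filter, Finset.mem_Icc, Finset.mem_Ioc]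
          constructor
          · rintro ⟨⟨a1, a2⟩, a3⟩
            by_cases h : p ≤ R
            · exact Or.inl ⟨⟨a1, h⟩, a3⟩
            · exact Or.inr ⟨⟨by omega, a2⟩, a3⟩
          · rintro (⟨⟨a1, a2⟩, a3⟩ | ⟨⟨a1, a2⟩, a3⟩)
            · exact ⟨⟨a1, by omega⟩, a3⟩
            · exact ⟨⟨by omega, a2⟩, a3⟩
        · rw [Finset.disjoint_left]
          intro p hp hq
          rw [Finset.mem_filter, Finset.mem_Icc] at hp
          rw [Finset.mem_filter, Finset.mem_Ioc] at hq
          omega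
      have e3 : ∑ p ∈ A, Real.log p ≤ A.card * Real.log (2 * R) := by
        rw [← nsmul_eq_mul]
        apply Finset.sum_le_card_nsmul
        intro p hp
        rw [hA, Finset.mem_filter, Finset.mem_Ioc] at hp
        apply Real.log_le_log
        · exact_mod_cast hp.2.pos
        · exact_mod_cast hp.1.2
      linarith
    rw [le_div_iff₀ (by linarith)] at h3
    linarith
  have hth : (N : ℝ) / 2 ≤ th N := by
    rw [le_div_iff₀ hN0] at h1
    linarith
  have hl2R : Real.log (2 * R) ≤ l := Real.log_le_log (by linarith) h2R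
  have hl2R0 : 0 < Real.log (2 * (R : ℝ)) := Real.log_pos (by linarith)
  -- the sum over `A`
  have hsum : (N : ℝ) / (16 * l ^ 2) ≤ ∑ a ∈ A, ((Sa N a).card : ℝ) := by
    have e1 : ∀ a ∈ A, th N / (2 * R) - Emax N a ≤ (Sa N a).card * l := by
      intro a ha
      rw [hA, Finset.mem_filter, Finset.mem_Ioc] at ha
      have hc : Nat.Coprime a (a - 1) :=
        (Nat.coprime_self_sub_right ha.2.one_lt.le).2 (Nat.coprime_one_right a)
      have e2 := le_Emax N a (a - 1) (by have := ha.2.pos; omega) hc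
      have e3 := (abs_le.1 e2).1
      have e4 : th N / (2 * R) ≤ th N / a.totient := by
        apply div_le_div_of_nonneg_left (BVDPNT_th_nonneg N)
        · exact_mod_cast Nat.totient_pos.2 ha.2.pos
        · have := Nat.totient_le a
          have h7 : a.totient ≤ 2 * R := by omega
          exact_mod_cast h7
      have e5 := thAP_le_card N a
      linarith
    have e2 := Finset.sum_le_sum e1
    rw [Finset.sum_sub_distrib, Finset.sum_const, nsmul_eq_mul, ← Finset.sum_mul] at e2
    have e3 : (N : ℝ) / (8 * l) ≤ A.card * (th N / (2 * R)) := by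
      have f1 : (R : ℝ) / (2 * l) ≤ A.card := by
        rw [div_le_iff₀ (by positivity)]
        have f2 : (A.card : ℝ) * Real.log (2 * R) ≤ A.card * l :=
          mul_le_mul_of_nonneg_left hl2R (Nat.cast_nonneg _)
        nlinarith
      have f3 : (N : ℝ) / 2 / (2 * R) ≤ th N / (2 * R) := by
        apply div_le_div_of_nonneg_right hth (by positivity)
      calc (N : ℝ) / (8 * l) = (R : ℝ) / (2 * l) * ((N : ℝ) / 2 / (2 * R)) := by
            field_simp
            norm_num
        _ ≤ _ := mul_le_mul f1 f3 (by positivity) (Nat.cast_nonneg _)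
    have e4 : (N : ℝ) / (16 * l) ≤ (∑ a ∈ A, ((Sa N a).card : ℝ)) * l := by
      have f1 : (N : ℝ) / (8 * l) = N / (16 * l) + N / (16 * l) := by
        field_simp
        norm_num
      linarith
    rw [div_le_iff₀ (by positivity)] at e4 ⊢
    nlinarith
  -- the degrees
  have hdeg : ∀ a ∈ A, ((Sa N a).card : ℝ) - 1 ≤ dg adj (Icc 1 n) a := by
    intro a ha
    rw [hA, Finset.mem_filter, Finset.mem_Ioc] at ha
    have haR : (R : ℝ) + 1 ≤ a := by exact_mod_cast ha.1.1
    have hle : N + 1 ≤ 2 * a * n := by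
      have f1 : (N : ℝ) + 1 ≤ 2 * a * n := by
        have g1 : Real.sqrt N / l ^ 12 ≤ a := by linarith
        have g2 : Real.sqrt N / l ^ 12 * (2 * (Real.sqrt N * l ^ 12)) = 2 * N := by
          have g0 : Real.sqrt N / l ^ 12 * (2 * (Real.sqrt N * l ^ 12)) =
              2 * (Real.sqrt N * Real.sqrt N) := by
            field_simp
          rw [g0, hss]
        have g3 : Real.sqrt N / l ^ 12 * (2 * (Real.sqrt N * l ^ 12)) ≤ a * n :=
          mul_le_mul g1 hn (by positivity) (Nat.cast_nonneg _)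
        nlinarith
      exact_mod_cast f1
    have := card_Sa_le N n a ha.2 (by omega) hle
    have h7 : ((Sa N a).card : ℝ) ≤ dg adj (Icc 1 n) a + 1 := by exact_mod_cast this
    linarith
  have hAsub : A ⊆ Icc 1 n := by
    intro a ha
    rw [hA, Finset.mem_filter, Finset.mem_Ioc] at ha
    rw [Finset.mem_Icc]
    refine ⟨by omega, ?_⟩
    have f1 : (a : ℝ) ≤ n := by
      have g1 : (a : ℝ) ≤ 2 * R := by exact_mod_cast ha.1.2
      nlinarith
    exact_mod_cast f1
  have hfin : ∑ a ∈ A, ((Sa N a).card : ℝ) - A.card ≤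
      ((∑ x ∈ Icc 1 n, dg adj (Icc 1 n) x : ℕ) : ℝ) := by
    have f1 := Finset.sum_le_sum hdeg
    rw [Finset.sum_sub_distrib, Finset.sum_const, nsmul_eq_mul, mul_one] at f1
    refine f1.trans ?_
    rw [← Nat.cast_sum]
    exact_mod_cast Finset.sum_le_sum_of_subset hAsub
  have hAc : (A.card : ℝ) ≤ N / (32 * l ^ 2) := by
    have f1 : A.card ≤ R := by
      have := Finset.card_filter_le (Ioc R (2 * R)) Nat.Prime
      rw [Nat.card_Ioc] at this
      rw [hA]
      omega
    have f2 : (A.card : ℝ) ≤ R := by exact_mod_cast f1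
    rw [le_div_iff₀ (by positivity)]
    rw [← hsq] at h5
    have f3 : (A.card : ℝ) ≤ Real.sqrt N := f2.trans hRs
    calc (A.card : ℝ) * (32 * l ^ 2) ≤ Real.sqrt N * Real.sqrt N := by
          apply mul_le_mul f3 h5 (by positivity) (by positivity)
      _ = N := hss
  have hlast : (N : ℝ) / (16 * l ^ 2) = N / (32 * l ^ 2) + N / (32 * l ^ 2) := by
    field_simp
    norm_num
  linarith

end Pool.Agent.Lib_helper44.CP
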