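import Pool.Agent.Lib_helper23.BGF.MVT
import Pool.Agent.Lib_helper23.BGF.RED
import Pool.Agent.Lib_helper23.BGF.BVAUX

/-!
# Primes in the class `-1` modulo large primes, on average

There is no exceptional character here: all non-principal characters modulo a prime are primitive.
-/

set_option autoImplicit false

namespace Pool.Agent.Lib_helper44.CP

open Finset Filter Complex Pool.Agent.BG
open scoped ArithmeticFunction.vonMangoldt Classical

theorem prm_mem (r : ℕ) (hr : r.Prime) (χ : DirichletCharacter ℂ r) (hχ : χ ≠ 1) : χ ∈ Prm r := by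
  have : NeZero r := ⟨hr.ne_zero⟩
  unfold Prm
  refine Finset.mem_filter.2 ⟨mem_univ _, ?_⟩
  rw [DirichletCharacter.isPrimitive_def]
  rcases (Nat.dvd_prime hr).1 χ.conductor_dvd_level with h | h
  · exact absurd (DirichletCharacter.eq_one_iff_conductor_eq_one.2 h) hχ
  · exact h

theorem emax_sum : ∃ C : ℝ, 0 < C ∧ ∀ N : ℕ, 3 ≤ N → ∀ R U : ℕ, 1 ≤ R → 1 ≤ U →
      ∑ a ∈ (Ioc R (2 * R)).filter Nat.Prime, Emax N a ≤
        (7 * (U : ℝ) ^ 2 * (R : ℝ) ^ 2 * (2 + Real.log N) +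
          44 * (2 + Real.log N) ^ 3 * (N / R + 4 * (N / Real.sqrt U) + 4 * (R * Real.sqrt N))) +
          C * (R * ((Real.sqrt N + Real.log (2 * R) + 1) * Real.log (N + 2))) := by
  obtain ⟨C1, hC1, hE⟩ := Emax_le
  refine ⟨C1, hC1, ?_⟩
  intro N hN R U hR hU
  have hN1 : (1 : ℝ) ≤ N := by
    have : (3 : ℝ) ≤ N := by exact_mod_cast hN
    linarith
  have hR1 : (1 : ℝ) ≤ R := by exact_mod_cast hR
  have hl2 : 0 ≤ Real.log ((N : ℝ) + 2) := Real.log_nonneg (by linarith)
  have hlR : 0 ≤ Real.log (2 * (R : ℝ)) := Real.log_nonneg (by linarith)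
  have hP : ∀ r : ℕ, 0 ≤ ∑ χ ∈ Prm r, ‖psiC χ N‖ := fun r => Finset.sum_nonneg fun χ _ => norm_nonneg _
  have h1 : ∀ a ∈ (Ioc R (2 * R)).filter Nat.Prime, Emax N a ≤
      (1 / (a.totient : ℝ)) * ∑ χ ∈ Prm a, ‖psiC χ N‖ +
        C1 * ((Real.sqrt N + Real.log (2 * R) + 1) * Real.log (N + 2)) := by
    intro a ha
    rw [mem_filter, mem_Ioc] at ha
    refine (hE N a ha.2.one_lt.le).trans ?_
    have h2 : ∑ χ ∈ (univ : Finset (DirichletCharacter ℂ a)).filter (fun χ => χ ≠ 1), ‖psiC χ N‖ ≤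
        ∑ χ ∈ Prm a, ‖psiC χ N‖ :=
      Finset.sum_le_sum_of_subset_of_nonneg
        (fun χ hχ => prm_mem a ha.2 χ (Finset.mem_filter.1 hχ).2) fun χ _ _ => norm_nonneg _
    have h3 : Real.log a ≤ Real.log (2 * (R : ℝ)) := by
      apply Real.log_le_log
      · exact_mod_cast ha.2.pos
      · exact_mod_cast ha.1.2
    have h4 : (0 : ℝ) ≤ 1 / (a.totient : ℝ) := by positivity
    have h5 : C1 * (Real.sqrt N + Real.log a + 1) * Real.log (N + 2) ≤
        C1 * ((Real.sqrt N + Real.log (2 * R) + 1) * Real.log (N + 2)) := by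
      rw [mul_assoc]
      apply mul_le_mul_of_nonneg_left _ hC1.le
      apply mul_le_mul_of_nonneg_right _ hl2
      linarith
    exact add_le_add (mul_le_mul_of_nonneg_left h2 h4) h5
  refine (Finset.sum_le_sum h1).trans ?_
  rw [Finset.sum_add_distrib, Finset.sum_const, nsmul_eq_mul]
  have h6 : ∑ a ∈ (Ioc R (2 * R)).filter Nat.Prime, (1 / (a.totient : ℝ)) * ∑ χ ∈ Prm a, ‖psiC χ N‖ ≤
      7 * (U : ℝ) ^ 2 * (R : ℝ) ^ 2 * (2 + Real.log N) +
          44 * (2 + Real.log N) ^ 3 * (N / R + 4 * (N / Real.sqrt U) + 4 * (R * Real.sqrt N)) := by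
    refine le_trans ?_ (MVT_gen R hR U N N hU le_rfl (by omega))
    apply Finset.sum_le_sum_of_subset_of_nonneg (Finset.filter_subset _ _)
    intro a _ _
    have := hP a
    positivity
  have h7 : (((Ioc R (2 * R)).filter Nat.Prime).card : ℝ) ≤ R := by
    have := Finset.card_filter_le (Ioc R (2 * R)) Nat.Prime
    rw [Nat.card_Ioc] at this
    have h8 : ((Ioc R (2 * R)).filter Nat.Prime).card ≤ R := by omega
    exact_mod_cast h8
  have h9 : 0 ≤ (Real.sqrt N + Real.log (2 * (R : ℝ)) + 1) * Real.log ((N : ℝ) + 2) := by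
    have := Real.sqrt_nonneg (N : ℝ)
    positivity
  have h10 : (((Ioc R (2 * R)).filter Nat.Prime).card : ℝ) *
      (C1 * ((Real.sqrt N + Real.log (2 * R) + 1) * Real.log (N + 2))) ≤
      C1 * (R * ((Real.sqrt N + Real.log (2 * R) + 1) * Real.log (N + 2))) := by
    have := mul_le_mul_of_nonneg_right h7 (mul_nonneg hC1.le h9)
    nlinarith [this]
  exact add_le_add h6 h10

end Pool.Agent.Lib_helper44.CP
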