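import Pool.Agent.Lib_helper44.CP.Edges

set_option autoImplicit false

namespace Pool.Agent.Lib_helper44.CP

open Finset Filter

theorem long : ∀ᶠ n : ℕ in atTop, ∃ m : ℕ, (n : ℝ) / Real.log n ^ 28 ≤ m ∧ ∃ p : ℕ → ℕ,
    Set.InjOn p (Set.Iio m) ∧ (∀ i, i < m → 1 ≤ p i ∧ p i ≤ n) ∧
      ∀ i, i < m → (2 * p i * p ((i + 1) % m) - 1).Prime := by
  -- choice of `N`
  set f : ℕ → ℕ := fun n => ⌊(n : ℝ) ^ 2 / Real.log n ^ 25⌋₊ with hf
  have hlt : Tendsto (fun N : ℕ => Real.log N) atTop atTop :=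
    Real.tendsto_log_atTop.comp tendsto_natCast_atTop_atTop
  have ftop : Tendsto f atTop atTop := by
    refine tendsto_nat_floor_atTop.comp ?_
    rw [tendsto_atTop]
    intro b
    have ev1 := log_small 1 one_pos (max b 1) (by positivity) 25
    filter_upwards [ev1, hlt.eventually_ge_atTop 1, eventually_ge_atTop 1] with N h1 h3 h4
    have hl : 0 < Real.log N ^ 25 := by positivity
    have h5 : (1 : ℝ) ≤ N := by exact_mod_cast h4
    rw [le_div_iff₀ hl]
    rw [Real.rpow_one] at h1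
    have h6 := mul_le_mul_of_nonneg_right (le_max_left b 1) hl.le
    nlinarith
  have ev0 := ftop.eventually edges
  have ev1 := hlt.eventually_ge_atTop ((2 : ℝ) ^ 26)
  have ev2 := ftop.eventually (eventually_ge_atTop 3)
  have ev3 := log_small 1 one_pos 1 one_pos 28
  filter_upwards [ev0, ev1, ev2, ev3, eventually_ge_atTop 3] with n h0 h1 h2 h3 hn3
  set N := f n with hN
  set L := Real.log n with hL
  have hn3' : (3 : ℝ) ≤ n := by exact_mod_cast hn3
  have hn0 : (0 : ℝ) < n := by linarith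
  have hL1 : 1 ≤ L := le_trans (by norm_num) h1
  have hL0 : 0 < L := by linarith
  have hN3 : (3 : ℝ) ≤ N := by exact_mod_cast h2
  have hN0 : (0 : ℝ) < N := by linarith
  have hL25 : 1 ≤ L ^ 25 := one_le_pow₀ hL1
  have hNle : (N : ℝ) ≤ (n : ℝ) ^ 2 / L ^ 25 := Nat.floor_le (by positivity)
  have hNlt : (n : ℝ) ^ 2 / L ^ 25 < N + 1 := Nat.lt_floor_add_one _
  have hNn : (N : ℝ) ≤ (n : ℝ) ^ 2 := hNle.trans (div_le_self (by positivity) hL25)
  have hlogN : Real.log N ≤ 2 * L := by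
    have := Real.log_le_log hN0 hNn
    rw [Real.log_pow] at this
    exact_mod_cast this
  have hlogN0 : 0 < Real.log N := Real.log_pos (by linarith)
  -- the condition of `edges`
  have hcond : 2 * (Real.sqrt N * Real.log N ^ 12) ≤ n := by
    have e1 : Real.log N ^ 12 ≤ 4096 * L ^ 12 := by
      have := pow_le_pow_left₀ hlogN0.le hlogN 12
      rw [mul_pow] at this
      linarith
    have e2 : Real.sqrt N * (8192 * L ^ 12) ≤ n := by
      refine (sq_le_sq₀ (by positivity) hn0.le).1 ?_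
      rw [mul_pow, Real.sq_sqrt hN0.le]
      have e3 : (N : ℝ) * L ^ 25 ≤ (n : ℝ) ^ 2 := by rwa [le_div_iff₀ (by positivity)] at hNle
      have e4 : (8192 * L ^ 12) ^ 2 ≤ L ^ 25 := by
        have e5 : (8192 : ℝ) ^ 2 ≤ L := by
          refine le_trans (by norm_num) h1
        calc (8192 * L ^ 12) ^ 2 = 8192 ^ 2 * L ^ 24 := by ring
          _ ≤ L * L ^ 24 := mul_le_mul_of_nonneg_right e5 (by positivity)
          _ = L ^ 25 := by ring
      exact (mul_le_mul_of_nonneg_left e4 hN0.le).trans e3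
    have e6 := mul_le_mul_of_nonneg_left e1 (Real.sqrt_nonneg (N : ℝ))
    linarith
  have hE := h0 n hcond
  -- minimal degree
  set k := ⌊(N : ℝ) / (64 * n * Real.log N ^ 2)⌋₊ with hk
  have hkle : (k : ℝ) ≤ (N : ℝ) / (64 * n * Real.log N ^ 2) := Nat.floor_le (by positivity)
  have hklt : (N : ℝ) / (64 * n * Real.log N ^ 2) < k + 1 := Nat.lt_floor_add_one _
  have hbig : (n : ℝ) / L ^ 28 ≤ (N : ℝ) / (64 * n * Real.log N ^ 2) := by
    rw [div_le_div_iff₀ (by positivity) (by positivity)]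
    have e1 : Real.log N ^ 2 ≤ 4 * L ^ 2 := by
      have := pow_le_pow_left₀ hlogN0.le hlogN 2
      rw [mul_pow] at this
      linarith
    have e2 : (n : ℝ) ^ 2 ≤ 2 * N * L ^ 25 := by
      rw [div_lt_iff₀ (by positivity)] at hNlt
      have : ((N : ℝ) + 1) * L ^ 25 ≤ 2 * N * L ^ 25 :=
        mul_le_mul_of_nonneg_right (by linarith) (by positivity)
      linarith
    calc (n : ℝ) * (64 * n * Real.log N ^ 2) = 64 * (n : ℝ) ^ 2 * Real.log N ^ 2 := by ring
      _ ≤ 64 * (2 * N * L ^ 25) * (4 * L ^ 2) := by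
          apply mul_le_mul _ e1 (by positivity) (by positivity)
          linarith
      _ = 512 * N * L ^ 27 := by ring
      _ ≤ L * (N * L ^ 27) := by
          have : (512 : ℝ) ≤ L := le_trans (by norm_num) h1
          have := mul_le_mul_of_nonneg_right this (show 0 ≤ (N : ℝ) * L ^ 27 by positivity)
          linarith
      _ = N * L ^ 28 := by ring
  have hk1 : 1 ≤ k := by
    rw [hk, Nat.one_le_floor_iff]
    refine le_trans ?_ hbig
    rw [le_div_iff₀ (by positivity)]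
    rw [Real.rpow_one] at h3
    exact h3
  have hsum : 2 * k * (Icc 1 n).card ≤ ∑ x ∈ Icc 1 n, dg adj (Icc 1 n) x := by
    rw [Nat.card_Icc]
    have e1 : ((2 * k * (n + 1 - 1) : ℕ) : ℝ) ≤ ((∑ x ∈ Icc 1 n, dg adj (Icc 1 n) x : ℕ) : ℝ) := by
      refine le_trans ?_ hE
      rw [Nat.add_sub_cancel]
      push_cast
      rw [le_div_iff₀ (by positivity)]
      rw [le_div_iff₀ (by positivity)] at hkle
      linarith
    exact_mod_cast e1
  obtain ⟨U, hU, hUne, hUd⟩ := core adj adj_symm adj_irrefl k (Icc 1 n)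
    ⟨1, Finset.mem_Icc.2 ⟨le_rfl, by omega⟩⟩ hsum
  obtain ⟨m, hm, p, hp1, hp2, hp3⟩ := cyc adj adj_symm adj_irrefl k hk1 U hUne hUd
  refine ⟨m, ?_, p, hp1, ?_, ?_⟩
  · have : (k : ℝ) + 1 ≤ m := by exact_mod_cast hm
    linarith
  · intro i hi
    exact Finset.mem_Icc.1 (hU (hp2 i hi))
  · intro i hi
    exact (hp3 i hi).2

end Pool.Agent.Lib_helper44.CP
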