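import Pool.Agent.Lib_helper44.CP.Err

set_option autoImplicit false

namespace Pool.Agent.Lib_helper44.CP

open Finset Filter Complex Pool.Agent.BG
open scoped ArithmeticFunction.vonMangoldt Classical

/-- a power of the logarithm is eventually small -/
theorem log_small (s : ℝ) (hs : 0 < s) (C : ℝ) (hC : 0 < C) (k : ℕ) :
    ∀ᶠ N : ℕ in atTop, C * Real.log N ^ k ≤ (N : ℝ) ^ s := by
  have h1 := isLittleO_log_rpow_rpow_atTop (k : ℝ) hs
  have h2 := h1.bound (show (0 : ℝ) < 1 / C by positivity)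
  have h3 := (tendsto_natCast_atTop_atTop (R := ℝ)).eventually h2
  filter_upwards [h3, eventually_ge_atTop 1] with N hN hN1
  have hN0 : (0 : ℝ) < N := by exact_mod_cast hN1
  have hl0 : 0 ≤ Real.log N := Real.log_natCast_nonneg N
  rw [Real.rpow_natCast, Real.norm_eq_abs, Real.norm_eq_abs, abs_of_nonneg (by positivity),
    abs_of_nonneg (by positivity)] at hN
  calc C * Real.log N ^ k ≤ C * (1 / C * (N : ℝ) ^ s) := mul_le_mul_of_nonneg_left hN hC.le
    _ = _ := by field_simp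

/-- the size of the moduli -/
noncomputable def Rr (N : ℕ) : ℕ := ⌊Real.sqrt N / Real.log N ^ 12⌋₊

theorem Rr_tendsto : Tendsto Rr atTop atTop := by
  have h1 : Tendsto (fun N : ℕ => Real.sqrt N / Real.log N ^ 12) atTop atTop := by
    rw [tendsto_atTop]
    intro b
    have ev1 := log_small (1 / 2) (by norm_num) (max b 1) (by positivity) 12
    have ev3 : ∀ᶠ N : ℕ in atTop, 1 ≤ Real.log N :=
      (Real.tendsto_log_atTop.comp tendsto_natCast_atTop_atTop).eventually_ge_atTop _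
    filter_upwards [ev1, ev3] with N h1 h3
    have hl : 0 < Real.log N ^ 12 := by positivity
    rw [le_div_iff₀ hl, Real.sqrt_eq_rpow]
    refine le_trans ?_ h1
    exact mul_le_mul_of_nonneg_right (le_max_left _ _) hl.le
  exact tendsto_nat_floor_atTop.comp h1

theorem err_small : ∀ᶠ N : ℕ in atTop,
    ∑ a ∈ (Ioc (Rr N) (2 * Rr N)).filter Nat.Prime, Emax N a ≤ N / (16 * Real.log N) := by
  obtain ⟨C, hC, h⟩ := emax_sum
  have ev1 := log_small (1 / 2) (by norm_num) 2376 (by norm_num) 17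
  have ev3 : ∀ᶠ N : ℕ in atTop, 16 * (156838 + 6 * C) ≤ Real.log N :=
    (Real.tendsto_log_atTop.comp tendsto_natCast_atTop_atTop).eventually_ge_atTop _
  have ev4 := Rr_tendsto.eventually (eventually_ge_atTop 1)
  filter_upwards [ev1, ev3, ev4, eventually_ge_atTop 16] with N h1 h3' hR1 hN16
  have h3 : 1 ≤ Real.log N := by nlinarith
  set R := Rr N with hR
  set l := Real.log N with hl
  have hN3' : (16 : ℝ) ≤ N := by exact_mod_cast hN16
  have hN1 : (1 : ℝ) ≤ N := by linarith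
  have hN0 : (0 : ℝ) < N := by linarith
  have hl0 : 0 < l := by linarith
  have hR1' : (1 : ℝ) ≤ R := by exact_mod_cast hR1
  have hsq : Real.sqrt N = (N : ℝ) ^ (1 / 2 : ℝ) := Real.sqrt_eq_rpow _
  have hss : Real.sqrt N * Real.sqrt N = N := Real.mul_self_sqrt hN0.le
  have hs4 : 4 ≤ Real.sqrt N := by
    rw [show (4 : ℝ) = Real.sqrt (4 ^ 2) by rw [Real.sqrt_sq (by norm_num)]]
    exact Real.sqrt_le_sqrt (by linarith)
  set s := Real.sqrt N with hs
  have hl12 : 0 < l ^ 12 := by positivity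
  have hRle : (R : ℝ) ≤ s / l ^ 12 := Nat.floor_le (by positivity)
  have hRlt : s / l ^ 12 < R + 1 := Nat.lt_floor_add_one _
  have hRl : (R : ℝ) * l ^ 12 ≤ s := by rwa [le_div_iff₀ hl12] at hRle
  have hRl2 : s ≤ 2 * R * l ^ 12 := by
    rw [div_lt_iff₀ hl12] at hRlt
    nlinarith
  have hRs : (R : ℝ) ≤ s := by
    have : 1 ≤ l ^ 12 := one_le_pow₀ h3
    nlinarith
  set k := ⌊l⌋₊ with hk
  have hk1 : 1 ≤ k := by
    rw [hk, Nat.one_le_floor_iff]
    exact h3
  have hk1' : (1 : ℝ) ≤ k := by exact_mod_cast hk1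
  have hkl : (k : ℝ) ≤ l := Nat.floor_le hl0.le
  have hlk : l ≤ 2 * k := by
    have := Nat.lt_floor_add_one l
    rw [← hk] at this
    linarith
  refine (h N (by omega) R (k ^ 10) hR1 (Nat.one_le_pow _ _ hk1)).trans ?_
  have hsqk : Real.sqrt ((k ^ 10 : ℕ) : ℝ) = (k : ℝ) ^ 5 := by
    rw [show (((k ^ 10 : ℕ) : ℝ)) = ((k : ℝ) ^ 5) ^ 2 by push_cast; ring]
    exact Real.sqrt_sq (by positivity)
  rw [hsqk]
  have h2l : 2 + l ≤ 3 * l := by linarith
  -- first term
  have e1 : 7 * (((k ^ 10 : ℕ) : ℝ)) ^ 2 * (R : ℝ) ^ 2 * (2 + l) ≤ 21 * N / l ^ 2 := by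
    have f1 : (((k ^ 10 : ℕ) : ℝ)) ^ 2 ≤ l ^ 20 := by
      push_cast
      rw [← pow_mul]
      exact pow_le_pow_left₀ (by positivity) hkl 20
    have f2 : (R : ℝ) ^ 2 * l ^ 24 ≤ N := by
      have := pow_le_pow_left₀ (by positivity) hRl 2
      rw [mul_pow, ← pow_mul] at this
      rw [← hss]
      calc (R : ℝ) ^ 2 * l ^ 24 ≤ s ^ 2 := this
        _ = s * s := sq s
    rw [le_div_iff₀ (by positivity)]
    calc 7 * (((k ^ 10 : ℕ) : ℝ)) ^ 2 * (R : ℝ) ^ 2 * (2 + l) * l ^ 2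
        ≤ 7 * l ^ 20 * (R : ℝ) ^ 2 * (3 * l) * l ^ 2 := by
          apply mul_le_mul_of_nonneg_right _ (by positivity)
          apply mul_le_mul _ h2l (by positivity) (by positivity)
          apply mul_le_mul_of_nonneg_right _ (by positivity)
          linarith
      _ = 21 * ((R : ℝ) ^ 2 * l ^ 23) := by ring
      _ ≤ 21 * ((R : ℝ) ^ 2 * l ^ 24) := by
          have := pow_le_pow_right₀ h3 (show 23 ≤ 24 by norm_num)
          have f3 := mul_le_mul_of_nonneg_left this (show 0 ≤ 21 * (R : ℝ) ^ 2 by positivity)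
          linarith
      _ ≤ 21 * N := by linarith
  have hcube : (2 + l) ^ 3 ≤ 27 * l ^ 3 := by
    have := pow_le_pow_left₀ (by positivity) h2l 3
    rw [mul_pow] at this
    linarith
  -- the three terms of the second bracket
  have g1 : l ^ 3 * ((N : ℝ) / R) ≤ N / (1188 * l ^ 2) := by
    rw [le_div_iff₀ (by positivity)]
    have f1 : (N : ℝ) / R ≤ 2 * l ^ 12 * s := by
      rw [div_le_iff₀ (by linarith)]
      nlinarith
    have f2 : l ^ 3 * ((N : ℝ) / R) * (1188 * l ^ 2) ≤ (2376 * l ^ 17) * s := by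
      have := mul_le_mul_of_nonneg_left f1 (show 0 ≤ l ^ 3 * (1188 * l ^ 2) by positivity)
      nlinarith
    have f3 : (2376 * l ^ 17) * s ≤ s * s := by
      apply mul_le_mul_of_nonneg_right _ (by positivity)
      rw [hsq]
      exact h1
    linarith
  have g2 : l ^ 3 * (4 * ((N : ℝ) / (k : ℝ) ^ 5)) ≤ 128 * N / l ^ 2 := by
    rw [le_div_iff₀ (by positivity)]
    have f1 : l ^ 5 ≤ 32 * (k : ℝ) ^ 5 := by
      have := pow_le_pow_left₀ hl0.le hlk 5
      rw [mul_pow] at this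
      linarith
    have f2 : (N : ℝ) / (k : ℝ) ^ 5 * l ^ 5 ≤ 32 * N := by
      rw [div_mul_eq_mul_div, div_le_iff₀ (by positivity)]
      nlinarith
    nlinarith
  have g3 : l ^ 3 * (4 * ((R : ℝ) * s)) ≤ 4 * N / l ^ 2 := by
    rw [le_div_iff₀ (by positivity)]
    have f1 : (R : ℝ) * l ^ 5 ≤ s := by
      refine le_trans ?_ hRl
      exact mul_le_mul_of_nonneg_left (pow_le_pow_right₀ h3 (by norm_num)) (by positivity)
    calc l ^ 3 * (4 * ((R : ℝ) * s)) * l ^ 2 = 4 * ((R : ℝ) * l ^ 5) * s := by ring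
      _ ≤ 4 * s * s := by
          apply mul_le_mul_of_nonneg_right _ (by positivity)
          linarith
      _ = 4 * N := by rw [mul_assoc, hss]
  have e2 : 44 * (2 + l) ^ 3 * ((N : ℝ) / R + 4 * (N / (k : ℝ) ^ 5) + 4 * (R * s)) ≤
      156817 * N / l ^ 2 := by
    have f0 : 0 ≤ (N : ℝ) / R + 4 * (N / (k : ℝ) ^ 5) + 4 * (R * s) := by positivity
    have f1 := mul_le_mul_of_nonneg_right hcube f0
    have f2 : (N : ℝ) / (1188 * l ^ 2) = (1 / 1188) * (N / l ^ 2) := by
      field_simp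
    have f3 : 128 * (N : ℝ) / l ^ 2 = 128 * (N / l ^ 2) := by ring
    have f4 : 4 * (N : ℝ) / l ^ 2 = 4 * (N / l ^ 2) := by ring
    have f5 : 156817 * (N : ℝ) / l ^ 2 = 156817 * (N / l ^ 2) := by ring
    rw [f2] at g1
    rw [f3] at g2
    rw [f4] at g3
    rw [f5]
    have f6 : 27 * l ^ 3 * ((N : ℝ) / R + 4 * (N / (k : ℝ) ^ 5) + 4 * (R * s)) =
        27 * (l ^ 3 * ((N : ℝ) / R) + l ^ 3 * (4 * (N / (k : ℝ) ^ 5)) + l ^ 3 * (4 * (R * s))) := by
      ring
    rw [f6] at f1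
    have f7 : 0 ≤ (N : ℝ) / l ^ 2 := by positivity
    nlinarith
  have h2R : (2 : ℝ) * R ≤ N := by nlinarith
  have b3 : s + Real.log (2 * R) + 1 ≤ 3 * s := by
    have f1 : Real.log (2 * (R : ℝ)) ≤ l := Real.log_le_log (by linarith) h2R
    have f2 : l ≤ s := by
      rw [hsq]
      refine le_trans ?_ h1
      have : l ≤ l ^ 17 := le_self_pow₀ h3 (by norm_num)
      nlinarith
    linarith
  have b4 : Real.log ((N : ℝ) + 2) ≤ 2 * l := by
    have f1 : Real.log ((N : ℝ) + 2) ≤ Real.log ((N : ℝ) * N) :=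
      Real.log_le_log (by linarith) (by nlinarith)
    rw [Real.log_mul hN0.ne' hN0.ne'] at f1
    linarith
  have e3 : C * ((R : ℝ) * ((s + Real.log (2 * R) + 1) * Real.log (N + 2))) ≤
      6 * C * N / l ^ 2 := by
    have f0 : 0 ≤ Real.log (2 * (R : ℝ)) := Real.log_nonneg (by linarith)
    have f1 : (s + Real.log (2 * R) + 1) * Real.log (N + 2) ≤ (3 * s) * (2 * l) :=
      mul_le_mul b3 b4 (Real.log_nonneg (by linarith)) (by positivity)
    have f2 : (R : ℝ) * ((s + Real.log (2 * R) + 1) * Real.log (N + 2)) ≤ R * ((3 * s) * (2 * l)) :=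
      mul_le_mul_of_nonneg_left f1 (by positivity)
    have f3 : (R : ℝ) * ((3 * s) * (2 * l)) * l ^ 2 ≤ 6 * N := by
      have f4 : (R : ℝ) * l ^ 3 ≤ s := by
        refine le_trans ?_ hRl
        exact mul_le_mul_of_nonneg_left (pow_le_pow_right₀ h3 (by norm_num)) (by positivity)
      calc (R : ℝ) * ((3 * s) * (2 * l)) * l ^ 2 = 6 * ((R : ℝ) * l ^ 3) * s := by ring
        _ ≤ 6 * s * s := by
            apply mul_le_mul_of_nonneg_right _ (by positivity)
            linarith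
        _ = 6 * N := by rw [mul_assoc, hss]
    rw [le_div_iff₀ (by positivity)]
    have f5 := mul_le_mul_of_nonneg_right f2 (show 0 ≤ l ^ 2 by positivity)
    have f6 := mul_le_mul_of_nonneg_left (f5.trans f3) hC.le
    nlinarith
  have e4 : 21 * (N : ℝ) / l ^ 2 + 156817 * N / l ^ 2 + 6 * C * N / l ^ 2 ≤ N / (16 * l) := by
    have f1 : 21 * (N : ℝ) / l ^ 2 + 156817 * N / l ^ 2 + 6 * C * N / l ^ 2 =
        (156838 + 6 * C) * N / l ^ 2 := by ring
    rw [f1, div_le_div_iff₀ (by positivity) (by positivity)]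
    have f2 := mul_le_mul_of_nonneg_right h3' (show 0 ≤ (N : ℝ) * l by positivity)
    nlinarith
  linarith

end Pool.Agent.Lib_helper44.CP
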